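import Mathlib
import Pool.Agent.TH348.Circ.Upper
import Pool.Agent.TH348.Circ.ZCount
import Pool.Agent.TH348.Circ.Low
import Pool.Agent.TH348.Circ.Seven

/-! The minimum number of circles determined by `n` points of the plane. -/

namespace Pool.Agent.Results.MP_1f1ca1_co.MinCircles

open Finset Pool.Agent.Helper543.Blocks Pool.Agent.Helper543.Melchior
open Pool.Agent.Helper543.PlaneC Pool.Agent.Helper543.Small Pool.Agent.Helper543.Bounds
open Pool.Agent.Helper543.Count

/-- the circles determined by `P`: the circles (of positive radius) through at least three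
points of `P` -/
def circlesOf (P : Finset (EuclideanSpace ℝ (Fin 2))) : Set (Set (EuclideanSpace ℝ (Fin 2))) :=
  {C | (∃ (c : EuclideanSpace ℝ (Fin 2)) (r : ℝ), 0 < r ∧ C = Metric.sphere c r) ∧
    3 ≤ ((P : Set (EuclideanSpace ℝ (Fin 2))) ∩ C).ncard}

/-- not all points on one line, and not all points on one circle -/
def IsAdmissible (P : Finset (EuclideanSpace ℝ (Fin 2))) : Prop :=
  ¬ Collinear ℝ (P : Set (EuclideanSpace ℝ (Fin 2))) ∧
  ¬ ∃ (c : EuclideanSpace ℝ (Fin 2)) (r : ℝ), 0 < r ∧
    (P : Set (EuclideanSpace ℝ (Fin 2))) ⊆ Metric.sphere c r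

/-- the minimum value -/
def val (n : ℕ) : ℕ := if n = 6 then 8 else if n = 7 then 11 else (n - 2) ^ 2 / 2 + 1

lemma lower_all (P : Finset Plane) (hn : (4 ≤ P.card ∧ P.card ≤ 7) ∨ 14 ≤ P.card)
    (hP : Admissible (P : Set Plane)) : val P.card ≤ (Circles (P : Set Plane)).ncard := by
  by_cases h15 : 15 ≤ P.card
  · have := lower P h15 hP
    unfold val
    rw [if_neg (by omega), if_neg (by omega)]
    exact this
  have hcard : (P.image phi).card = P.card := card_image_of_injective _ phi_inj
  rw [ncard_circles]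
  rw [admissible_iff P (by omega)] at hP
  by_cases h6 : P.card = 6
  · unfold val
    rw [if_pos h6]
    exact Pool.Agent.TH348.Circ.Six.lower6 _ (by rw [hcard, h6]) hP
  by_cases h7 : P.card = 7
  · unfold val
    rw [if_neg h6, if_pos h7]
    exact Pool.Agent.TH348.Circ.Seven.lower7 _ (by rw [hcard, h7]) hP
  have hs : P.card = 4 ∨ P.card = 5 ∨ P.card = 14 := by omega
  have h := Pool.Agent.TH348.Circ.Low.lower_small (cfg (P.image phi) (by omega) hP)
    (by simpa [cfg, hcard] using hs)
    (by
      intro hmem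
      obtain ⟨x, hx, hx'⟩ := hP _ hmem
      exact hx' hx)
  unfold T cc Cfg.circ at h
  simp only [cfg, hcard] at h
  have h2 : (P.card - 2) ^ 2 / 2 < (blocks (P.image phi) \ lines (P.image phi)).card := by
    have h3 := h
    norm_cast at h3
  unfold val
  rw [if_neg h6, if_neg h7]
  omega

lemma upper_all (n : ℕ) (hn : 4 ≤ n) : ∃ P : Finset Plane, P.card = n ∧
    Admissible (P : Set Plane) ∧ (Circles (P : Set Plane)).ncard ≤ val n := by
  by_cases h6 : n = 6
  · subst h6
    exact Pool.Agent.TH348.Circ.upper6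
  by_cases h7 : n = 7
  · subst h7
    exact Pool.Agent.TH348.Circ.upper7
  · unfold val
    rw [if_neg h6, if_neg h7]
    exact Pool.Agent.TH348.Circ.upper n hn

/-- The minimum number of circles determined by an admissible set of `n` points of the plane,
for `4 ≤ n ≤ 7` and for all `n ≥ 14`. -/
theorem result (n : ℕ) (hn : (4 ≤ n ∧ n ≤ 7) ∨ 14 ≤ n) :
    IsLeast {c : ℕ | ∃ P : Finset (EuclideanSpace ℝ (Fin 2)), P.card = n ∧ IsAdmissible P ∧
      (circlesOf P).ncard = c} (val n) := by
  constructor
  · obtain ⟨P, h1, h2, h3⟩ := upper_all n (by omega)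
    refine ⟨P, h1, h2, ?_⟩
    have h4 := lower_all P (by rw [h1]; exact hn) h2
    rw [h1] at h4
    exact le_antisymm h3 h4
  · rintro c ⟨P, h1, h2, rfl⟩
    have h4 := lower_all P (by rw [h1]; exact hn) h2
    rw [h1] at h4
    exact h4

end Pool.Agent.Results.MP_1f1ca1_co.MinCircles
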